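import Pool.Agent.W475.BH.Stm

set_option autoImplicit false

/-!
Subtask D1: the terms with the same prime.
-/

namespace Pool.Agent.W73.BH

open Pool.Agent.W475.BH

/-- a telescoping sum -/
theorem tel (Y : ℝ) (hY : 0 < Y) (F : Finset ℕ) (hF : ∀ j ∈ F, 1 ≤ j) :
    ∑ j ∈ F, 1 / (((j : ℝ) + Y) * ((j : ℝ) + Y - 1)) ≤ 1 / Y := by
  have key : ∀ M : ℕ, ∑ j ∈ Finset.Icc 1 M, 1 / (((j : ℝ) + Y) * ((j : ℝ) + Y - 1)) =
      1 / Y - 1 / ((M : ℝ) + Y) := by
    intro M
    induction M with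
    | zero => simp
    | succ M ih =>
      rw [Finset.sum_Icc_succ_top (by omega), ih]
      have h1 : (0 : ℝ) < (M : ℝ) + Y := by positivity
      have h2 : ((M + 1 : ℕ) : ℝ) = (M : ℝ) + 1 := by push_cast; ring
      rw [h2]
      have h3 : (M : ℝ) + 1 + Y - 1 = (M : ℝ) + Y := by ring
      rw [h3]
      have h4 : (0 : ℝ) < (M : ℝ) + 1 + Y := by positivity
      field_simp
      ring
  have hsub : F ⊆ Finset.Icc 1 (F.sup id) := by
    intro j hj
    rw [Finset.mem_Icc]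
    exact ⟨hF j hj, Finset.le_sup (f := id) hj⟩
  have hnn : ∀ j ∈ Finset.Icc 1 (F.sup id), j ∉ F →
      0 ≤ 1 / (((j : ℝ) + Y) * ((j : ℝ) + Y - 1)) := by
    intro j hj _
    have : (1 : ℝ) ≤ j := by exact_mod_cast (Finset.mem_Icc.mp hj).1
    apply div_nonneg zero_le_one
    apply mul_nonneg <;> linarith
  refine (Finset.sum_le_sum_of_subset_of_nonneg hsub hnn).trans ?_
  rw [key]
  have : 0 ≤ 1 / (((F.sup id : ℕ) : ℝ) + Y) := by positivity
  linarith

/-- the truncated inverse square is dominated by the telescoping term -/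
theorem min_tel (Y j : ℝ) (hY : 0 < Y) (hj : 1 ≤ j) :
    min 1 (Y ^ 2 / j ^ 2) ≤ 4 * Y ^ 2 * (1 / ((j + Y) * (j + Y - 1))) := by
  have h1 : 0 < j + Y - 1 := by linarith
  have h2 : 0 < j + Y := by linarith
  have h3 : 4 * Y ^ 2 * (1 / ((j + Y) * (j + Y))) ≤ 4 * Y ^ 2 * (1 / ((j + Y) * (j + Y - 1))) := by
    apply mul_le_mul_of_nonneg_left _ (by positivity)
    apply one_div_le_one_div_of_le (by positivity)
    apply mul_le_mul_of_nonneg_left _ h2.le
    linarith
  refine le_trans ?_ h3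
  rw [mul_one_div]
  rcases le_total j Y with h | h
  · refine (min_le_left _ _).trans ?_
    rw [le_div_iff₀ (by positivity)]
    nlinarith
  · refine (min_le_right _ _).trans ?_
    rw [div_le_div_iff₀ (by positivity) (by positivity)]
    have : (j + Y) * (j + Y) ≤ 4 * j ^ 2 := by nlinarith
    calc Y ^ 2 * ((j + Y) * (j + Y)) ≤ Y ^ 2 * (4 * j ^ 2) :=
          mul_le_mul_of_nonneg_left this (by positivity)
      _ = 4 * Y ^ 2 * j ^ 2 := by ring

theorem gauss_exp (κ : ℝ) (hκ : 0 < κ) (x : ℝ) :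
    Real.exp (-(κ * x ^ 2)) ≤ Real.exp (1 / (4 * κ)) * Real.exp (-|x|) := by
  rw [← Real.exp_add]
  apply Real.exp_le_exp.mpr
  have h1 : x ^ 2 = |x| ^ 2 := (sq_abs x).symm
  rw [h1]
  have h2 : 0 ≤ κ * (|x| - 1 / (2 * κ)) ^ 2 := by positivity
  have h3 : κ * (|x| - 1 / (2 * κ)) ^ 2 = κ * |x| ^ 2 - |x| + 1 / (4 * κ) := by
    field_simp
    ring
  linarith

section
variable (κ : ℝ) (p : ℕ)

/-- bound E / p -/
theorem base1 (hκ : 0 < κ) (hp : 1 ≤ p) (n : ℕ) (hn : 1 ≤ n) :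
    1 / (n : ℝ) * Real.exp (-(κ * Real.log ((n : ℝ) / p) ^ 2)) ≤
      Real.exp (1 / (4 * κ)) * (1 / p) := by
  have hn0 : (0 : ℝ) < n := by exact_mod_cast hn
  have hp0 : (0 : ℝ) < p := by exact_mod_cast hp
  have h1 := gauss_exp κ hκ (Real.log ((n : ℝ) / p))
  have h2 : Real.exp (-|Real.log ((n : ℝ) / p)|) ≤ (n : ℝ) / p := by
    calc Real.exp (-|Real.log ((n : ℝ) / p)|) ≤ Real.exp (Real.log ((n : ℝ) / p)) :=
          Real.exp_le_exp.mpr (neg_abs_le _)
      _ = (n : ℝ) / p := Real.exp_log (by positivity)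
  calc 1 / (n : ℝ) * Real.exp (-(κ * Real.log ((n : ℝ) / p) ^ 2))
      ≤ 1 / (n : ℝ) * (Real.exp (1 / (4 * κ)) * ((n : ℝ) / p)) := by
        apply mul_le_mul_of_nonneg_left _ (by positivity)
        exact h1.trans (mul_le_mul_of_nonneg_left h2 (Real.exp_pos _).le)
    _ = Real.exp (1 / (4 * κ)) * (1 / p) := by
        field_simp

/-- bound E p / n^2 -/
theorem base2 (hκ : 0 < κ) (hp : 1 ≤ p) (n : ℕ) (hn : 1 ≤ n) :
    1 / (n : ℝ) * Real.exp (-(κ * Real.log ((n : ℝ) / p) ^ 2)) ≤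
      Real.exp (1 / (4 * κ)) * (p / (n : ℝ) ^ 2) := by
  have hn0 : (0 : ℝ) < n := by exact_mod_cast hn
  have hp0 : (0 : ℝ) < p := by exact_mod_cast hp
  have h1 := gauss_exp κ hκ (Real.log ((n : ℝ) / p))
  have h2 : Real.exp (-|Real.log ((n : ℝ) / p)|) ≤ (p : ℝ) / n := by
    calc Real.exp (-|Real.log ((n : ℝ) / p)|) ≤ Real.exp (-Real.log ((n : ℝ) / p)) :=
          Real.exp_le_exp.mpr (neg_le_neg (le_abs_self _))
      _ = (p : ℝ) / n := by
          rw [Real.exp_neg, Real.exp_log (by positivity), inv_div]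
  calc 1 / (n : ℝ) * Real.exp (-(κ * Real.log ((n : ℝ) / p) ^ 2))
      ≤ 1 / (n : ℝ) * (Real.exp (1 / (4 * κ)) * ((p : ℝ) / n)) := by
        apply mul_le_mul_of_nonneg_left _ (by positivity)
        exact h1.trans (mul_le_mul_of_nonneg_left h2 (Real.exp_pos _).le)
    _ = Real.exp (1 / (4 * κ)) * (p / (n : ℝ) ^ 2) := by
        field_simp

/-- the near terms -/
theorem near (hκ : 0 < κ) (hp : 1 ≤ p) (W : ℝ) (hW : 1 ≤ W) (n : ℕ) (hn : 1 ≤ n)
    (j : ℝ) (hj : 1 ≤ j) (hlog : j / (2 * p) ≤ |Real.log ((n : ℝ) / p)|) :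
    1 / (n : ℝ) * Real.exp (-(κ * Real.log ((n : ℝ) / p) ^ 2)) *
        min 1 (4 / (W * Real.log ((n : ℝ) / p)) ^ 2) ≤
      Real.exp (1 / (4 * κ)) * (1 / p) * (4 * (4 * p / W) ^ 2 *
        (1 / ((j + 4 * p / W) * (j + 4 * p / W - 1)))) := by
  have hp0 : (0 : ℝ) < p := by exact_mod_cast hp
  have hW0 : 0 < W := by linarith
  have hx0 : 0 < |Real.log ((n : ℝ) / p)| := lt_of_lt_of_le (by positivity) hlog
  have h1 : min 1 (4 / (W * Real.log ((n : ℝ) / p)) ^ 2) ≤ min 1 ((4 * p / W) ^ 2 / j ^ 2) := by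
    apply min_le_min_left
    have h2 : (W * Real.log ((n : ℝ) / p)) ^ 2 = (W * |Real.log ((n : ℝ) / p)|) ^ 2 := by
      rw [mul_pow, mul_pow, sq_abs]
    rw [h2]
    have h3 : (W * (j / (2 * p))) ^ 2 ≤ (W * |Real.log ((n : ℝ) / p)|) ^ 2 := by
      apply pow_le_pow_left₀ (by positivity)
      exact mul_le_mul_of_nonneg_left hlog hW0.le
    calc 4 / (W * |Real.log ((n : ℝ) / p)|) ^ 2 ≤ 4 / (W * (j / (2 * p))) ^ 2 :=
          div_le_div_of_nonneg_left (by norm_num) (by positivity) h3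
      _ = (4 * p / W) ^ 2 / j ^ 2 := by
          field_simp
          norm_num
  have h4 := h1.trans (min_tel (4 * p / W) j (by positivity) hj)
  refine mul_le_mul (base1 κ p hκ hp n hn) h4 ?_ (by positivity)
  exact le_min zero_le_one (by positivity)

/-- the far terms -/
theorem far (hκ : 0 < κ) (hp : 1 ≤ p) (W : ℝ) (hW : 1 ≤ W) (n : ℕ) (hn : 2 * p < n) :
    1 / (n : ℝ) * Real.exp (-(κ * Real.log ((n : ℝ) / p) ^ 2)) *
        min 1 (4 / (W * Real.log ((n : ℝ) / p)) ^ 2) ≤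
      Real.exp (1 / (4 * κ)) * p * (16 / W) *
        (1 / ((((n - 2 * p : ℕ) : ℝ) + 2 * p) * (((n - 2 * p : ℕ) : ℝ) + 2 * p - 1))) := by
  have hp0 : (1 : ℝ) ≤ p := by exact_mod_cast hp
  have hW0 : 0 < W := by linarith
  have hn2 : 2 * (p : ℝ) < n := by exact_mod_cast hn
  have hc : ((n - 2 * p : ℕ) : ℝ) + 2 * p = n := by
    rw [Nat.cast_sub hn.le]; push_cast; ring
  rw [hc]
  have hx : 1 / 2 ≤ Real.log ((n : ℝ) / p) := by
    have h1 : (2 : ℝ) ≤ (n : ℝ) / p := by
      rw [le_div_iff₀ (by linarith)]; exact hn2.le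
    have h2 : Real.log 2 ≤ Real.log ((n : ℝ) / p) := Real.log_le_log (by norm_num) h1
    have h3 := Real.log_two_gt_d9
    linarith
  have h1 : min 1 (4 / (W * Real.log ((n : ℝ) / p)) ^ 2) ≤ 16 / W := by
    refine (min_le_right _ _).trans ?_
    have h2 : (W * (1 / 2)) ^ 2 ≤ (W * Real.log ((n : ℝ) / p)) ^ 2 := by
      apply pow_le_pow_left₀ (by positivity)
      exact mul_le_mul_of_nonneg_left hx hW0.le
    calc 4 / (W * Real.log ((n : ℝ) / p)) ^ 2 ≤ 4 / (W * (1 / 2)) ^ 2 :=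
          div_le_div_of_nonneg_left (by norm_num) (by positivity) h2
      _ = 16 / W * (1 / W) := by
          field_simp
          norm_num
      _ ≤ 16 / W * 1 := by
          apply mul_le_mul_of_nonneg_left _ (by positivity)
          rw [div_le_one hW0]; exact hW
      _ = 16 / W := mul_one _
  have h2 : Real.exp (1 / (4 * κ)) * (p / (n : ℝ) ^ 2) ≤
      Real.exp (1 / (4 * κ)) * (p * (1 / ((n : ℝ) * ((n : ℝ) - 1)))) := by
    apply mul_le_mul_of_nonneg_left _ (Real.exp_pos _).le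
    rw [div_eq_mul_one_div (p : ℝ)]
    apply mul_le_mul_of_nonneg_left _ (by linarith)
    apply one_div_le_one_div_of_le
    · apply mul_pos <;> linarith
    · nlinarith
  calc _ ≤ Real.exp (1 / (4 * κ)) * (p * (1 / ((n : ℝ) * ((n : ℝ) - 1)))) * (16 / W) := by
        refine mul_le_mul ((base2 κ p hκ hp n (by omega)).trans h2) h1 ?_ ?_
        · exact le_min zero_le_one (by positivity)
        · apply mul_nonneg (Real.exp_pos _).le
          apply mul_nonneg (by linarith)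
          apply div_nonneg zero_le_one
          apply mul_nonneg <;> linarith
    _ = _ := by ring

end

/-- logarithms of ratios, upper side -/
theorem log_up (p n : ℕ) (hp : 1 ≤ p) (h1 : p < n) (h2 : n ≤ 2 * p) :
    ((n - p : ℕ) : ℝ) / (2 * p) ≤ |Real.log ((n : ℝ) / p)| := by
  have hp0 : (0 : ℝ) < p := by exact_mod_cast hp
  have hn0 : (0 : ℝ) < n := by exact_mod_cast (by omega : 0 < n)
  have hn : (p : ℝ) < n := by exact_mod_cast h1
  have hn2 : (n : ℝ) ≤ 2 * p := by exact_mod_cast h2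
  refine le_trans ?_ (le_abs_self _)
  rw [Nat.cast_sub h1.le]
  have h3 := Real.one_sub_inv_le_log_of_pos (show 0 < (n : ℝ) / p by positivity)
  refine le_trans ?_ h3
  rw [inv_div]
  have h4 : 1 - (p : ℝ) / n = (n - p) / n := by field_simp
  rw [h4]
  exact div_le_div_of_nonneg_left (by linarith) hn0 hn2

/-- logarithms of ratios, lower side -/
theorem log_dn (p n : ℕ) (hn : 1 ≤ n) (h1 : n < p) :
    ((p - n : ℕ) : ℝ) / (2 * p) ≤ |Real.log ((n : ℝ) / p)| := by
  have hn0 : (0 : ℝ) < n := by exact_mod_cast hn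
  have hnp : (n : ℝ) < p := by exact_mod_cast h1
  have hp0 : (0 : ℝ) < p := by linarith
  have h2 : -Real.log ((n : ℝ) / p) = Real.log ((p : ℝ) / n) := by
    rw [← Real.log_inv, inv_div]
  refine le_trans ?_ (neg_le_abs _)
  rw [h2, Nat.cast_sub h1.le]
  have h3 := Real.one_sub_inv_le_log_of_pos (show 0 < (p : ℝ) / n by positivity)
  refine le_trans ?_ h3
  rw [inv_div]
  have h4 : 1 - (n : ℝ) / p = (p - n) / p := by field_simp
  rw [h4]
  exact div_le_div_of_nonneg_left (by linarith) hp0 (by linarith)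

/-- sums over an image -/
theorem sum_img (g : ℕ → ℝ) (B : ℝ) (hB : ∀ F : Finset ℕ, (∀ j ∈ F, 1 ≤ j) → ∑ j ∈ F, g j ≤ B)
    (S : Finset ℕ) (f : ℕ → ℕ) (hf : ∀ n ∈ S, 1 ≤ f n) (hi : Set.InjOn f S) :
    ∑ n ∈ S, g (f n) ≤ B := by
  classical
  rw [← Finset.sum_image hi]
  apply hB
  intro j hj
  obtain ⟨n, hn, rfl⟩ := Finset.mem_image.mp hj
  exact hf n hn

theorem t_D1 : S_D1 := by
  intro κ hκ
  set E := Real.exp (1 / (4 * κ)) with hE
  have hE0 : 0 < E := Real.exp_pos _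
  refine ⟨40 * E, by positivity, fun p N W hW hWp => ?_⟩
  have hp0' : (1 : ℝ) ≤ p := hW.trans hWp
  have hp : 1 ≤ p := by exact_mod_cast hp0'
  have hp0 : (0 : ℝ) < p := by linarith
  have hW0 : 0 < W := by linarith
  set Y := 4 * (p : ℝ) / W with hY
  have hY0 : 0 < Y := by positivity
  set S := (Finset.Icc 1 N).filter (fun n => n ≠ p) with hS
  set t : ℕ → ℝ := fun n => 1 / (n : ℝ) *
    Real.exp (-(κ * Real.log ((n : ℝ) / p) ^ 2)) * min 1 (4 / (W * Real.log ((n : ℝ) / p)) ^ 2)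
    with ht
  have hS1 : ∀ n ∈ S, 1 ≤ n ∧ n ≠ p := by
    intro n hn
    rw [hS, Finset.mem_filter, Finset.mem_Icc] at hn
    exact ⟨hn.1.1, hn.2⟩
  have hsplit : ∑ n ∈ S, t n = ∑ n ∈ S.filter (fun n => n < p), t n +
      (∑ n ∈ (S.filter (fun n => ¬ n < p)).filter (fun n => n ≤ 2 * p), t n +
       ∑ n ∈ (S.filter (fun n => ¬ n < p)).filter (fun n => ¬ n ≤ 2 * p), t n) := by
    rw [Finset.sum_filter_add_sum_filter_not, Finset.sum_filter_add_sum_filter_not]
  have hB1 : ∀ F : Finset ℕ, (∀ j ∈ F, 1 ≤ j) → ∑ j ∈ F, E * (1 / p) * (4 * Y ^ 2 *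
        (1 / (((j : ℝ) + Y) * ((j : ℝ) + Y - 1)))) ≤ 16 * E / W := by
    intro F hF
    rw [← Finset.mul_sum, ← Finset.mul_sum]
    have h1 := tel Y hY0 F hF
    calc E * (1 / p) * (4 * Y ^ 2 * ∑ j ∈ F, 1 / (((j : ℝ) + Y) * ((j : ℝ) + Y - 1)))
        ≤ E * (1 / p) * (4 * Y ^ 2 * (1 / Y)) := by
          apply mul_le_mul_of_nonneg_left _ (by positivity)
          exact mul_le_mul_of_nonneg_left h1 (by positivity)
      _ = 16 * E / W := by
          rw [hY]
          field_simp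
          ring
  have hB2 : ∀ F : Finset ℕ, (∀ j ∈ F, 1 ≤ j) → ∑ j ∈ F, E * p * (16 / W) *
        (1 / (((j : ℝ) + 2 * p) * ((j : ℝ) + 2 * p - 1))) ≤ 8 * E / W := by
    intro F hF
    rw [← Finset.mul_sum]
    have h1 := tel (2 * p) (by positivity) F hF
    calc E * p * (16 / W) * ∑ j ∈ F, 1 / (((j : ℝ) + 2 * p) * ((j : ℝ) + 2 * p - 1))
        ≤ E * p * (16 / W) * (1 / (2 * p)) := by
          apply mul_le_mul_of_nonneg_left h1 (by positivity)
      _ = 8 * E / W := by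
          field_simp
          norm_num
  have h1 : ∑ n ∈ S.filter (fun n => n < p), t n ≤ 16 * E / W := by
    refine le_trans (Finset.sum_le_sum fun n hn => ?_)
      (sum_img (fun j => E * (1 / p) * (4 * Y ^ 2 *
        (1 / (((j : ℝ) + Y) * ((j : ℝ) + Y - 1))))) _ hB1 (S.filter (fun n => n < p))
        (fun n => p - n) ?_ ?_)
    · rw [Finset.mem_filter] at hn
      have hn1 := (hS1 n hn.1).1
      have hj : (1 : ℝ) ≤ ((p - n : ℕ) : ℝ) := by
        have : 1 ≤ p - n := by omega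
        exact_mod_cast this
      exact near κ p hκ hp W hW n hn1 _ hj (log_dn p n hn1 hn.2)
    · intro n hn
      rw [Finset.mem_filter] at hn
      show 1 ≤ p - n
      omega
    · intro n hn m hm h
      have hn' := (Finset.mem_filter.mp hn).2
      have hm' := (Finset.mem_filter.mp hm).2
      have h' : p - n = p - m := h
      omega
  have h2 : ∑ n ∈ (S.filter (fun n => ¬ n < p)).filter (fun n => n ≤ 2 * p), t n ≤ 16 * E / W := by
    refine le_trans (Finset.sum_le_sum fun n hn => ?_)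
      (sum_img (fun j => E * (1 / p) * (4 * Y ^ 2 *
        (1 / (((j : ℝ) + Y) * ((j : ℝ) + Y - 1))))) _ hB1
        ((S.filter (fun n => ¬ n < p)).filter (fun n => n ≤ 2 * p)) (fun n => n - p) ?_ ?_)
    · rw [Finset.mem_filter, Finset.mem_filter] at hn
      obtain ⟨hn1, hn2⟩ := hS1 n hn.1.1
      have hlt : p < n := by omega
      have hj : (1 : ℝ) ≤ ((n - p : ℕ) : ℝ) := by
        have : 1 ≤ n - p := by omega
        exact_mod_cast this
      exact near κ p hκ hp W hW n hn1 _ hj (log_up p n hp hlt hn.2)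
    · intro n hn
      rw [Finset.mem_filter, Finset.mem_filter] at hn
      obtain ⟨hn1, hn2⟩ := hS1 n hn.1.1
      show 1 ≤ n - p
      omega
    · intro n hn m hm h
      have hn' := Finset.mem_filter.mp (Finset.mem_filter.mp hn).1
      have hm' := Finset.mem_filter.mp (Finset.mem_filter.mp hm).1
      have hn2 := (hS1 n hn'.1).2
      have hm2 := (hS1 m hm'.1).2
      have h' : n - p = m - p := h
      omega
  have h3 : ∑ n ∈ (S.filter (fun n => ¬ n < p)).filter (fun n => ¬ n ≤ 2 * p), t n ≤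
      8 * E / W := by
    refine le_trans (Finset.sum_le_sum fun n hn => ?_)
      (sum_img (fun j => E * p * (16 / W) *
        (1 / (((j : ℝ) + 2 * p) * ((j : ℝ) + 2 * p - 1)))) _ hB2
        ((S.filter (fun n => ¬ n < p)).filter (fun n => ¬ n ≤ 2 * p)) (fun n => n - 2 * p) ?_ ?_)
    · rw [Finset.mem_filter] at hn
      exact far κ p hκ hp W hW n (by omega)
    · intro n hn
      rw [Finset.mem_filter] at hn
      show 1 ≤ n - 2 * p
      omega
    · intro n hn m hm h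
      have hn' := (Finset.mem_filter.mp hn).2
      have hm' := (Finset.mem_filter.mp hm).2
      have h' : n - 2 * p = m - 2 * p := h
      omega
  show ∑ n ∈ S, t n ≤ 40 * E / W
  rw [hsplit]
  have : 40 * E / W = 16 * E / W + (16 * E / W + 8 * E / W) := by ring
  rw [this]
  exact add_le_add h1 (add_le_add h2 h3)

end Pool.Agent.W73.BH
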